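import Pool.Agent.Lib_helper90.Packing.Greedy
import Pool.Agent.Lib_helper90.PNT.WienerIkehara

/-!
# Asymptotics
-/

set_option autoImplicit false

open Filter Topology

namespace Pool.Agent.Lib_helper90.Packing

open Pool.Agent.Lib_helper90.PNT

lemma card_primesUpTo (n : ℕ) : (primesUpTo n).card = Nat.primeCounting n := by
  rw [Nat.primeCounting, Nat.primeCounting', Nat.count_eq_card_filter_range]
  congr 1
  ext p
  simp only [primesUpTo, Finset.mem_filter, Finset.mem_Icc, Finset.mem_range]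
  constructor
  · rintro ⟨⟨_, h2⟩, h3⟩; exact ⟨by omega, h3⟩
  · rintro ⟨h1, h3⟩; exact ⟨⟨h3.pos, by omega⟩, h3⟩

lemma abel (u g : ℕ → ℝ) (hu : u 0 = 0) (n : ℕ) :
    ∑ m ∈ Finset.range n, (u (m + 1) - u m) * g (m + 1) =
      ∑ m ∈ Finset.range n, u m * (g m - g (m + 1)) + u n * g n := by
  induction n with
  | zero => simp [hu]
  | succ n ih => rw [Finset.sum_range_succ, Finset.sum_range_succ, ih]; ring

/-- `θ` at natural numbers -/
noncomputable def th (n : ℕ) : ℝ := Chebyshev.theta n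

lemma th_zero : th 0 = 0 := by
  unfold th Chebyshev.theta
  simp

lemma th_succ (n : ℕ) : th (n + 1) - th n = if (n + 1).Prime then Real.log ((n + 1 : ℕ) : ℝ) else 0 := by
  unfold th Chebyshev.theta
  rw [Nat.floor_natCast, Nat.floor_natCast, ← Finset.insert_Ioc_right_eq_Ioc_add_one (by omega),
    Finset.filter_insert]
  split_ifs with h
  · rw [Finset.sum_insert (by simp)]
    ring
  · ring

lemma sum_log_eq (N : ℕ) (g : ℕ → ℝ) :
    ∑ p ∈ primesUpTo N, g p * Real.log p =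
      ∑ m ∈ Finset.range N, (th (m + 1) - th m) * g (m + 1) := by
  unfold primesUpTo
  rw [Finset.sum_filter]
  have h1 : Finset.Icc 1 N = (Finset.range N).image (fun m => m + 1) := by
    ext x
    simp only [Finset.mem_Icc, Finset.mem_image, Finset.mem_range]
    constructor
    · rintro ⟨h1, h2⟩; exact ⟨x - 1, by omega, by omega⟩
    · rintro ⟨m, h1, rfl⟩; omega
  rw [h1, Finset.sum_image (by intro a _ b _ h; simpa using h)]
  apply Finset.sum_congr rfl
  intro m _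
  rw [th_succ]
  split_ifs with h
  · ring
  · simp

/-- Average of `|θ(m) - m|`. -/
lemma tendsto_err : Tendsto (fun n : ℕ => (∑ m ∈ Finset.range n, |th m - m|) / (n:ℝ) ^ 2) atTop
    (𝓝 0) := by
  rw [Metric.tendsto_atTop]
  intro ε hε
  -- |θ(m) - m| ≤ (ε/2) m for m ≥ N₀
  have h1 : Tendsto (fun n : ℕ => th n / n) atTop (𝓝 1) := by
    have := tendsto_theta_div.comp tendsto_natCast_atTop_atTop
    exact this
  rw [Metric.tendsto_atTop] at h1
  obtain ⟨N₀, hN₀⟩ := h1 (ε / 2) (by positivity)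
  set K : ℝ := ∑ m ∈ Finset.range N₀, |th m - m| with hK
  have hK0 : 0 ≤ K := Finset.sum_nonneg fun m _ => abs_nonneg _
  have hbound : ∀ n : ℕ, ∑ m ∈ Finset.range n, |th m - m| ≤ K + (ε / 2) * (n:ℝ) ^ 2 := by
    intro n
    have h2 : ∀ m : ℕ, |th m - m| ≤ (if m < N₀ then |th m - m| else 0) + (ε / 2) * m := by
      intro m
      by_cases hm : m < N₀
      · simp only [hm, if_true]
        have : (0:ℝ) ≤ ε / 2 * m := by positivity
        linarith
      · simp only [hm, if_false, zero_add]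
        push Not at hm
        by_cases hm0 : m = 0
        · subst hm0; simp [th_zero]
        · have h3 := hN₀ m hm
          rw [Real.dist_eq] at h3
          have hm' : (0:ℝ) < m := by exact_mod_cast Nat.pos_of_ne_zero hm0
          have h4 : |th m - m| = |th m / m - 1| * m := by
            rw [← abs_of_pos hm', ← abs_mul, abs_of_pos hm']
            congr 1
            field_simp
          rw [h4]
          exact mul_le_mul_of_nonneg_right h3.le hm'.le
    calc ∑ m ∈ Finset.range n, |th m - m|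
        ≤ ∑ m ∈ Finset.range n, ((if m < N₀ then |th m - m| else 0) + (ε / 2) * m) :=
          Finset.sum_le_sum fun m _ => h2 m
      _ = ∑ m ∈ Finset.range n, (if m < N₀ then |th m - m| else 0) +
          ∑ m ∈ Finset.range n, (ε / 2) * (m:ℝ) := Finset.sum_add_distrib
      _ ≤ K + (ε / 2) * (n:ℝ) ^ 2 := by
          apply add_le_add
          · rw [← Finset.sum_filter]
            apply Finset.sum_le_sum_of_subset_of_nonneg
            · intro m hm
              rw [Finset.mem_filter] at hm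
              exact Finset.mem_range.2 hm.2
            · intro m _ _; exact abs_nonneg _
          · rw [← Finset.mul_sum]
            apply mul_le_mul_of_nonneg_left _ (by positivity)
            calc ∑ m ∈ Finset.range n, (m:ℝ) ≤ ∑ m ∈ Finset.range n, (n:ℝ) :=
                  Finset.sum_le_sum fun m hm => by
                    have := Finset.mem_range.1 hm
                    exact_mod_cast this.le
              _ = (n:ℝ) ^ 2 := by simp [pow_two]
  have h3 : Tendsto (fun n : ℕ => K / (n:ℝ) ^ 2) atTop (𝓝 0) := by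
    have h4 : Tendsto (fun n : ℕ => ((n:ℝ) ^ 2)) atTop atTop :=
      (tendsto_pow_atTop (two_ne_zero)).comp tendsto_natCast_atTop_atTop
    exact tendsto_const_nhds.div_atTop h4
  rw [Metric.tendsto_atTop] at h3
  obtain ⟨N₁, hN₁⟩ := h3 (ε / 2) (by positivity)
  refine ⟨max N₁ 1, fun n hn => ?_⟩
  have hn1 : N₁ ≤ n := le_trans (le_max_left _ _) hn
  have hn0 : 1 ≤ n := le_trans (le_max_right _ _) hn
  have hn' : (0:ℝ) < n := by exact_mod_cast hn0
  have h5 := hN₁ n hn1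
  rw [Real.dist_eq, sub_zero, abs_of_nonneg (by positivity)] at h5
  rw [Real.dist_eq, sub_zero, abs_of_nonneg (by positivity)]
  calc (∑ m ∈ Finset.range n, |th m - m|) / (n:ℝ) ^ 2
      ≤ (K + (ε / 2) * (n:ℝ) ^ 2) / (n:ℝ) ^ 2 := by
        apply div_le_div_of_nonneg_right (hbound n) (by positivity)
    _ = K / (n:ℝ) ^ 2 + ε / 2 := by field_simp
    _ < ε := by linarith

/-- main weighted sum over primes -/
noncomputable def TT (n : ℕ) : ℝ := ∑ p ∈ primesUpTo n, (wt n p : ℝ)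

lemma wt_real (n p : ℕ) : (wt n p : ℝ) = (p:ℝ) * (n - p) := by
  unfold wt; push_cast; ring

lemma sum_id (N n : ℕ) : ∑ m ∈ Finset.range n, ((m:ℝ) + 1) * (N - (m + 1)) =
    (n:ℝ) * (n + 1) * (3 * N - 2 * n - 1) / 6 := by
  induction n with
  | zero => simp
  | succ n ih => rw [Finset.sum_range_succ, ih]; push_cast; ring

lemma tendsto_sum_log :
    Tendsto (fun n : ℕ => (∑ p ∈ primesUpTo n, (wt n p : ℝ) * Real.log p) / (n:ℝ) ^ 3) atTop
      (𝓝 (1 / 6)) := by
  have hmain : ∀ n : ℕ, ∑ p ∈ primesUpTo n, (wt n p : ℝ) * Real.log p =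
      (n:ℝ) * (n + 1) * (n - 1) / 6 + ∑ m ∈ Finset.range n, (th m - m) *
        ((m:ℝ) * (n - m) - ((m + 1 : ℕ):ℝ) * (n - (m + 1 : ℕ))) := by
    intro n
    have h1 : ∑ p ∈ primesUpTo n, (wt n p : ℝ) * Real.log p =
        ∑ p ∈ primesUpTo n, ((p:ℝ) * (n - p)) * Real.log p :=
      Finset.sum_congr rfl fun p _ => by rw [wt_real]
    rw [h1, sum_log_eq n (fun p => (p:ℝ) * (n - p))]
    have h2 := abel (fun m => th m - m) (fun p => (p:ℝ) * (n - p)) (by simp [th_zero]) n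
    have h3 : ∑ m ∈ Finset.range n, (th (m + 1) - th m) * (((m + 1 : ℕ):ℝ) * (n - (m + 1 : ℕ))) =
        ∑ m ∈ Finset.range n, ((th (m + 1) - (m + 1 : ℕ)) - (th m - m)) *
          (((m + 1 : ℕ):ℝ) * (n - (m + 1 : ℕ))) +
        ∑ m ∈ Finset.range n, ((m:ℝ) + 1) * (n - (m + 1)) := by
      rw [← Finset.sum_add_distrib]
      apply Finset.sum_congr rfl
      intro m _
      push_cast
      ring
    rw [h3, h2, sum_id]
    ring
  have hE : Tendsto (fun n : ℕ => (∑ m ∈ Finset.range n, (th m - m) *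
        ((m:ℝ) * (n - m) - ((m + 1 : ℕ):ℝ) * (n - (m + 1 : ℕ)))) / (n:ℝ) ^ 3) atTop (𝓝 0) := by
    apply squeeze_zero_norm' _ tendsto_err
    filter_upwards [eventually_ge_atTop 1] with n hn
    have hn' : (0:ℝ) < n := by exact_mod_cast hn
    rw [norm_div, Real.norm_eq_abs, Real.norm_eq_abs, abs_of_pos (show (0:ℝ) < (n:ℝ) ^ 3 by positivity)]
    rw [div_le_div_iff₀ (by positivity) (by positivity)]
    have h1 : |∑ m ∈ Finset.range n, (th m - m) *
        ((m:ℝ) * (n - m) - ((m + 1 : ℕ):ℝ) * (n - (m + 1 : ℕ)))| ≤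
        (∑ m ∈ Finset.range n, |th m - m|) * n := by
      refine (Finset.abs_sum_le_sum_abs _ _).trans ?_
      rw [Finset.sum_mul]
      apply Finset.sum_le_sum
      intro m hm
      rw [abs_mul]
      apply mul_le_mul_of_nonneg_left _ (abs_nonneg _)
      have hm' : (m:ℝ) + 1 ≤ n := by exact_mod_cast Finset.mem_range.1 hm
      have hm0 : (0:ℝ) ≤ m := by positivity
      have e : (m:ℝ) * (n - m) - ((m + 1 : ℕ):ℝ) * (n - (m + 1 : ℕ)) = 2 * m + 1 - n := by
        push_cast; ring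
      rw [e, abs_le]
      constructor <;> linarith
    calc _ ≤ (∑ m ∈ Finset.range n, |th m - m|) * n * (n:ℝ) ^ 2 :=
          mul_le_mul_of_nonneg_right h1 (by positivity)
      _ = _ := by ring
  have hM : Tendsto (fun n : ℕ => ((n:ℝ) * (n + 1) * (n - 1) / 6) / (n:ℝ) ^ 3) atTop
      (𝓝 (1 / 6)) := by
    have h1 : Tendsto (fun n : ℕ => (1 - ((n:ℝ)⁻¹) ^ 2) / 6) atTop (𝓝 ((1 - 0 ^ 2) / 6)) := by
      apply Tendsto.div_const
      apply Tendsto.sub tendsto_const_nhds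
      exact (tendsto_inv_atTop_zero.comp tendsto_natCast_atTop_atTop).pow 2
    have h2 : ((1:ℝ) - 0 ^ 2) / 6 = 1 / 6 := by norm_num
    rw [h2] at h1
    refine h1.congr' ?_
    filter_upwards [eventually_ge_atTop 1] with n hn
    have hn' : (n:ℝ) ≠ 0 := by
      have : (0:ℝ) < n := by exact_mod_cast hn
      exact this.ne'
    field_simp
    ring
  have h := hM.add hE
  rw [add_zero] at h
  refine h.congr fun n => ?_
  rw [hmain]
  ring

lemma tendsto_pi_div : Tendsto (fun n : ℕ => (Nat.primeCounting n : ℝ) / n) atTop (𝓝 0) := by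
  have h1 : Tendsto (fun n : ℕ => (Real.log (n:ℝ))⁻¹) atTop (𝓝 0) :=
    tendsto_inv_atTop_zero.comp (Real.tendsto_log_atTop.comp tendsto_natCast_atTop_atTop)
  have h2 := tendsto_primeCounting.mul h1
  rw [mul_zero] at h2
  refine h2.congr' ?_
  filter_upwards [eventually_gt_atTop 1] with n hn
  have hlog : Real.log (n:ℝ) ≠ 0 := (Real.log_pos (by exact_mod_cast hn)).ne'
  field_simp

lemma tendsto_TT : Tendsto (fun n : ℕ => TT n * Real.log n / (n:ℝ) ^ 3) atTop (𝓝 (1 / 6)) := by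
  have hE : Tendsto (fun n : ℕ => (TT n * Real.log n -
      ∑ p ∈ primesUpTo n, (wt n p : ℝ) * Real.log p) / (n:ℝ) ^ 3) atTop (𝓝 0) := by
    apply squeeze_zero' _ _ tendsto_pi_div
    · filter_upwards [eventually_ge_atTop 1] with n hn
      apply div_nonneg _ (by positivity)
      unfold TT
      rw [Finset.sum_mul, ← Finset.sum_sub_distrib]
      apply Finset.sum_nonneg
      intro p hp
      simp only [primesUpTo, Finset.mem_filter, Finset.mem_Icc] at hp
      have hp0 : (0:ℝ) < p := by exact_mod_cast hp.2.pos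
      have hpn : (p:ℝ) ≤ n := by exact_mod_cast hp.1.2
      have h1 : Real.log p ≤ Real.log n := Real.log_le_log hp0 hpn
      rw [wt_real, ← mul_sub]
      apply mul_nonneg (mul_nonneg hp0.le (by linarith)) (by linarith)
    · filter_upwards [eventually_ge_atTop 1] with n hn
      have hn' : (0:ℝ) < n := by exact_mod_cast hn
      rw [div_le_div_iff₀ (by positivity) hn']
      have h1 : TT n * Real.log n - ∑ p ∈ primesUpTo n, (wt n p : ℝ) * Real.log p ≤
          (Nat.primeCounting n : ℝ) * (n:ℝ) ^ 2 := by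
        unfold TT
        rw [Finset.sum_mul, ← Finset.sum_sub_distrib, ← card_primesUpTo, ← nsmul_eq_mul,
          ← Finset.sum_const]
        apply Finset.sum_le_sum
        intro p hp
        simp only [primesUpTo, Finset.mem_filter, Finset.mem_Icc] at hp
        have hp0 : (0:ℝ) < p := by exact_mod_cast hp.2.pos
        have hpn : (p:ℝ) ≤ n := by exact_mod_cast hp.1.2
        rw [wt_real, ← mul_sub, ← Real.log_div hn'.ne' hp0.ne']
        have h2 : Real.log ((n:ℝ) / p) ≤ n / p := by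
          have := Real.log_le_sub_one_of_pos (show (0:ℝ) < n / p by positivity)
          linarith
        have h3 : (0:ℝ) ≤ n - p := by linarith
        calc (p:ℝ) * (n - p) * Real.log (n / p) ≤ (p:ℝ) * (n - p) * (n / p) :=
              mul_le_mul_of_nonneg_left h2 (mul_nonneg hp0.le h3)
          _ = (n - p) * n := by field_simp
          _ ≤ (n:ℝ) ^ 2 := by nlinarith
      calc _ ≤ (Nat.primeCounting n : ℝ) * (n:ℝ) ^ 2 * n :=
            mul_le_mul_of_nonneg_right h1 hn'.le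
        _ = _ := by ring
  have h := tendsto_sum_log.add hE
  rw [add_zero] at h
  refine h.congr fun n => ?_
  ring

/-! ### The upper bound -/

/-- the packing length is bounded by any achieved length -/
lemma packM_le {n L : ℕ} (h : Pk n (primesUpTo n) L) : packM n (primesUpTo n) ≤ L :=
  Nat.sInf_le h.packsInto

lemma primesUpTo_spec (n : ℕ) : ∀ p ∈ primesUpTo n, p.Prime ∧ p ≤ n := by
  intro p hp
  unfold primesUpTo at hp
  rw [Finset.mem_filter, Finset.mem_Icc] at hp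
  exact ⟨hp.2, hp.1.2⟩

lemma TT_le_packM (n : ℕ) : TT n ≤ packM n (primesUpTo n) := by
  have hne : {m : ℕ | PacksInto (fun d : primesUpTo n => prog n d) m}.Nonempty :=
    ⟨_, (Pk.trivial n (primesUpTo n) (fun d hd => (primesUpTo_spec n d hd).2)).packsInto⟩
  have h := lower_bound (Nat.sInf_mem hne)
  unfold TT packM packLength
  exact_mod_cast h

/-- the block length -/
noncomputable def ell (G n : ℕ) : ℕ := ⌊(n : ℝ) ^ (1 / (2 * (G:ℝ) ^ 2))⌋₊

lemma ell_bounds {G n : ℕ} (hG : 0 < G) (hn : 1 ≤ n) :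
    0 < ell G n ∧ (ell G n : ℝ) ^ (G * G) ≤ Real.sqrt n ∧ (ell G n : ℝ) ≤ Real.sqrt n ∧
      (n : ℝ) ^ (1 / (2 * (G:ℝ) ^ 2)) ≤ 2 * ell G n := by
  have hn' : (1:ℝ) ≤ n := by exact_mod_cast hn
  have hG' : (1:ℝ) ≤ G := by exact_mod_cast hG
  have h1 : (1:ℝ) ≤ (n : ℝ) ^ (1 / (2 * (G:ℝ) ^ 2)) := Real.one_le_rpow hn' (by positivity)
  have h2 : (ell G n : ℝ) ≤ (n : ℝ) ^ (1 / (2 * (G:ℝ) ^ 2)) := Nat.floor_le (by positivity)
  have h3 : 0 < ell G n := Nat.floor_pos.2 h1
  refine ⟨h3, ?_, ?_, ?_⟩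
  · calc (ell G n : ℝ) ^ (G * G) ≤ ((n : ℝ) ^ (1 / (2 * (G:ℝ) ^ 2))) ^ (G * G) :=
          pow_le_pow_left₀ (by positivity) h2 _
      _ = Real.sqrt n := by
          rw [← Real.rpow_natCast, ← Real.rpow_mul (by positivity), Real.sqrt_eq_rpow]
          congr 1
          push_cast
          field_simp
  · refine h2.trans ?_
    rw [Real.sqrt_eq_rpow]
    apply Real.rpow_le_rpow_of_exponent_le hn'
    rw [div_le_div_iff₀ (by positivity) (by norm_num)]
    nlinarith
  · have h4 : (n : ℝ) ^ (1 / (2 * (G:ℝ) ^ 2)) < ell G n + 1 := Nat.lt_floor_add_one _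
    have h5 : (1:ℝ) ≤ ell G n := by exact_mod_cast h3
    linarith

lemma upper_bound {G : ℕ} (hG : 0 < G) : ∀ᶠ n : ℕ in atTop,
    (packM n (primesUpTo n) : ℝ) ≤ TT n +
      (Nat.primeCounting n : ℝ) * ((n:ℝ) ^ 2 * (3 / G) + 6 * ((n:ℝ) * n / Real.sqrt n)) +
      (3 * (16 * G ^ 2) + 1 : ℝ) ^ G * ((2 * n / (n : ℝ) ^ (1 / (2 * (G:ℝ) ^ 2)) + 1) *
        ((n:ℝ) ^ 2 + 1)) := by
  filter_upwards [eventually_ge_atTop (2 * G), eventually_ge_atTop 1] with n hn2G hn1
  have hn' : (1:ℝ) ≤ n := by exact_mod_cast hn1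
  have hn0 : (0:ℝ) < n := by linarith
  have hG' : (1:ℝ) ≤ G := by exact_mod_cast hG
  obtain ⟨hl0, hl1, hl2, hl3⟩ := ell_bounds hG hn1
  set ℓ := ell G n with hℓ
  set s := n / G with hs
  have hsqrt1 : 1 ≤ Real.sqrt n := by rw [Real.one_le_sqrt]; exact hn'
  have hsqrt : Real.sqrt n * Real.sqrt n = n := Real.mul_self_sqrt hn0.le
  have hsqrtn : Real.sqrt n ≤ n := by nlinarith
  have hs1 : (s:ℝ) ≤ n / G := Nat.cast_div_le
  have hs2 : (n:ℝ) / (2 * G) ≤ s := by
    have h1 : (n:ℝ) / G < s + 1 := by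
      rw [div_lt_iff₀ (by positivity)]
      have h1' : n < (s + 1) * G := by
        have e1 := Nat.div_add_mod n G
        have e2 := Nat.mod_lt n hG
        have e3 : (s + 1) * G = G * (n / G) + G := by rw [hs]; ring
        omega
      exact_mod_cast h1'
    have h2 : (1:ℝ) ≤ n / (2 * G) := by
      rw [le_div_iff₀ (by positivity), one_mul]; exact_mod_cast hn2G
    have h3 : (n:ℝ) / G = n / (2 * G) + n / (2 * G) := by field_simp; ring
    linarith
  have hcond : G * (n + ℓ + 2 * s + ℓ ^ (G * G)) < (16 * G ^ 2) * s := by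
    have h1 : (G:ℝ) * (n + ℓ + 2 * s + ℓ ^ (G * G)) < (16 * G ^ 2) * s := by
      have h2 : (s:ℝ) ≤ n := hs1.trans (div_le_self hn0.le hG')
      have h3 : (n:ℝ) + ℓ + 2 * s + ℓ ^ (G * G) ≤ 5 * n := by linarith
      have h4 : (G:ℝ) * (n + ℓ + 2 * s + ℓ ^ (G * G)) ≤ G * (5 * n) :=
        mul_le_mul_of_nonneg_left h3 (by positivity)
      have h5 : (16 * (G:ℝ) ^ 2) * (n / (2 * G)) ≤ (16 * G ^ 2) * s :=
        mul_le_mul_of_nonneg_left hs2 (by positivity)
      have h6 : (16 * (G:ℝ) ^ 2) * (n / (2 * G)) = 8 * (G * n) := by field_simp; ring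
      have h7 : (0:ℝ) < G * n := by positivity
      linarith
    exact_mod_cast h1
  have hΛ : 2 ≤ 16 * G ^ 2 := by
    have : 1 ≤ G ^ 2 := Nat.one_le_pow _ _ hG
    omega
  obtain ⟨L, hL1, hL2⟩ := greedy (n := n) (G := G) (Λ := 16 * G ^ 2) (s := s) (ℓ := ℓ)
    (by omega) hG hΛ hl0 hcond _ (primesUpTo n) rfl (primesUpTo_spec n)
  have hle : (packM n (primesUpTo n) : ℝ) ≤ L := by exact_mod_cast packM_le hL1
  refine hle.trans (hL2.trans ?_)
  rw [card_primesUpTo]
  have hA : (errW n G s ℓ : ℝ) / G ≤ (n:ℝ) ^ 2 * (3 / G) + 6 * ((n:ℝ) * n / Real.sqrt n) := by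
    have hnn : (n:ℝ) * n / Real.sqrt n = n * Real.sqrt n := by
      rw [div_eq_iff (by positivity)]
      rw [mul_assoc, hsqrt]
    rw [hnn, div_le_iff₀ (by positivity)]
    unfold errW
    push_cast
    have e1 : ((n:ℝ) ^ 2 * (3 / G) + 6 * (n * Real.sqrt n)) * G =
        3 * (n:ℝ) ^ 2 + 6 * (n * Real.sqrt n) * G := by field_simp
    rw [e1]
    have hsG : (s:ℝ) * G ≤ n := by rwa [le_div_iff₀ (by positivity)] at hs1
    have hs3 : (s:ℝ) ≤ n := hs1.trans (div_le_self hn0.le hG')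
    have t1 : (G:ℝ) * (2 * ℓ * n) ≤ G * (2 * Real.sqrt n * n) := by gcongr
    have t2 : (G:ℝ) * (2 * s * n) ≤ 2 * (n:ℝ) ^ 2 := by nlinarith
    have t3 : (G:ℝ) * ((ℓ:ℝ) ^ (G * G) * n) ≤ G * (Real.sqrt n * n) := by gcongr
    have t4 : 2 * (s:ℝ) * ℓ ≤ 2 * n * Real.sqrt n * G := by
      calc 2 * (s:ℝ) * ℓ ≤ 2 * n * Real.sqrt n := by gcongr
        _ ≤ 2 * n * Real.sqrt n * G := le_mul_of_one_le_right (by positivity) hG'
    have t5 : (n:ℝ) * ℓ ≤ n * Real.sqrt n * G := by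
      calc (n:ℝ) * ℓ ≤ n * Real.sqrt n := by gcongr
        _ ≤ n * Real.sqrt n * G := le_mul_of_one_le_right (by positivity) hG'
    nlinarith
  have hB : (Nat.primeCounting n : ℝ) * ((errW n G s ℓ : ℝ) / G) ≤
      (Nat.primeCounting n : ℝ) * ((n:ℝ) ^ 2 * (3 / G) + 6 * ((n:ℝ) * n / Real.sqrt n)) :=
    mul_le_mul_of_nonneg_left hA (by positivity)
  have hC : ((n / ℓ + 1 : ℕ) * (3 * (16 * G ^ 2) + 1 : ℕ) ^ G : ℝ) * ((n:ℝ) ^ 2 + 1) ≤
      (3 * (16 * G ^ 2) + 1 : ℝ) ^ G * ((2 * n / (n : ℝ) ^ (1 / (2 * (G:ℝ) ^ 2)) + 1) *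
        ((n:ℝ) ^ 2 + 1)) := by
    have h1 : ((n / ℓ + 1 : ℕ) : ℝ) ≤ 2 * n / (n : ℝ) ^ (1 / (2 * (G:ℝ) ^ 2)) + 1 := by
      push_cast
      have h2 : ((n / ℓ : ℕ) : ℝ) ≤ n / ℓ := Nat.cast_div_le
      have hl0' : (0:ℝ) < ℓ := by exact_mod_cast hl0
      have h3 : (n:ℝ) / ℓ ≤ 2 * n / (n : ℝ) ^ (1 / (2 * (G:ℝ) ^ 2)) := by
        rw [div_le_div_iff₀ hl0' (by positivity)]
        nlinarith
      linarith
    have h4 : ((n / ℓ + 1 : ℕ) : ℝ) * (3 * (16 * G ^ 2) + 1 : ℝ) ^ G * ((n:ℝ) ^ 2 + 1) ≤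
        (2 * n / (n : ℝ) ^ (1 / (2 * (G:ℝ) ^ 2)) + 1) * (3 * (16 * G ^ 2) + 1 : ℝ) ^ G *
          ((n:ℝ) ^ 2 + 1) := by gcongr
    push_cast at h4 ⊢
    linarith
  unfold TT
  push_cast at hC ⊢
  linarith

lemma tendsto_upper {G : ℕ} (hG : 0 < G) :
    Tendsto (fun n : ℕ => (TT n +
      (Nat.primeCounting n : ℝ) * ((n:ℝ) ^ 2 * (3 / G) + 6 * ((n:ℝ) * n / Real.sqrt n)) +
      (3 * (16 * G ^ 2) + 1 : ℝ) ^ G * ((2 * n / (n : ℝ) ^ (1 / (2 * (G:ℝ) ^ 2)) + 1) *
        ((n:ℝ) ^ 2 + 1))) * Real.log n / (n:ℝ) ^ 3) atTop (𝓝 (1 / 6 + 3 / (G:ℝ))) := by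
  have hG' : (0:ℝ) < G := by exact_mod_cast hG
  set δ : ℝ := 1 / (2 * (G:ℝ) ^ 2) with hδ
  have hδ0 : 0 < δ := by positivity
  set K : ℝ := (3 * (16 * G ^ 2) + 1 : ℝ) ^ G with hK
  have hcast := tendsto_natCast_atTop_atTop (R := ℝ)
  have h1 := tendsto_TT
  have hsq : Tendsto (fun n : ℕ => (Real.sqrt (n:ℝ))⁻¹) atTop (𝓝 0) :=
    tendsto_inv_atTop_zero.comp (Real.tendsto_sqrt_atTop.comp hcast)
  have h2 : Tendsto (fun n : ℕ => ((Nat.primeCounting n : ℝ) * Real.log n / n) *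
      (3 / (G:ℝ) + 6 * (Real.sqrt (n:ℝ))⁻¹)) atTop (𝓝 (1 * (3 / (G:ℝ) + 6 * 0))) :=
    tendsto_primeCounting.mul (tendsto_const_nhds.add (hsq.const_mul 6))
  have hlog1 : Tendsto (fun n : ℕ => Real.log (n:ℝ) / (n:ℝ) ^ δ) atTop (𝓝 0) :=
    ((isLittleO_log_rpow_atTop hδ0).tendsto_div_nhds_zero).comp hcast
  have hlog2 : Tendsto (fun n : ℕ => Real.log (n:ℝ) / (n:ℝ)) atTop (𝓝 0) := by
    have := ((isLittleO_log_rpow_atTop one_pos).tendsto_div_nhds_zero).comp hcast
    refine this.congr fun n => ?_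
    simp
  have hinv : Tendsto (fun n : ℕ => ((n:ℝ)⁻¹) ^ 2) atTop (𝓝 0) := by
    have := (tendsto_inv_atTop_zero.comp hcast).pow 2
    simpa using this
  have h3 : Tendsto (fun n : ℕ => K * ((2 * (Real.log (n:ℝ) / (n:ℝ) ^ δ) + Real.log (n:ℝ) / (n:ℝ)) *
      (1 + ((n:ℝ)⁻¹) ^ 2))) atTop (𝓝 (K * ((2 * 0 + 0) * (1 + 0)))) :=
    (((hlog1.const_mul 2).add hlog2).mul (tendsto_const_nhds.add hinv)).const_mul K
  have h := (h1.add h2).add h3
  have e : (1:ℝ) / 6 + 1 * (3 / (G:ℝ) + 6 * 0) + K * ((2 * 0 + 0) * (1 + 0)) =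
      1 / 6 + 3 / (G:ℝ) := by ring
  rw [e] at h
  refine h.congr' ?_
  filter_upwards [eventually_ge_atTop 1] with n hn
  have hn0 : (0:ℝ) < n := by exact_mod_cast hn
  have hs0 : Real.sqrt (n:ℝ) ≠ 0 := (Real.sqrt_pos.2 hn0).ne'
  have hd0 : (n:ℝ) ^ δ ≠ 0 := (Real.rpow_pos_of_pos hn0 δ).ne'
  have hn0' : (n:ℝ) ≠ 0 := hn0.ne'
  field_simp

/-- The asymptotic formula. -/
theorem tendsto_packM :
    Tendsto (fun n : ℕ => (packM n (primesUpTo n) : ℝ) * Real.log n / (n:ℝ) ^ 3) atTop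
      (𝓝 (1 / 6)) := by
  rw [tendsto_order]
  constructor
  · intro x hx
    filter_upwards [tendsto_TT.eventually (lt_mem_nhds hx), eventually_ge_atTop 1] with n h1 hn
    refine lt_of_lt_of_le h1 ?_
    have hlog : 0 ≤ Real.log (n:ℝ) := Real.log_nonneg (by exact_mod_cast hn)
    exact div_le_div_of_nonneg_right (mul_le_mul_of_nonneg_right (TT_le_packM n) hlog)
      (by positivity)
  · intro x hx
    obtain ⟨G, hG⟩ := exists_nat_gt (3 / (x - 1 / 6))
    have hpos : 0 < x - 1 / 6 := by linarith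
    have hG0' : (0:ℝ) < G := lt_trans (by positivity) hG
    have hG0 : 0 < G := by exact_mod_cast hG0'
    have hlt : 1 / 6 + 3 / (G:ℝ) < x := by
      rw [div_lt_iff₀ hpos] at hG
      have : 3 / (G:ℝ) < x - 1 / 6 := by rw [div_lt_iff₀ hG0']; linarith
      linarith
    filter_upwards [(tendsto_upper hG0).eventually (gt_mem_nhds hlt), upper_bound hG0,
      eventually_ge_atTop 1] with n h1 h2 hn
    refine lt_of_le_of_lt ?_ h1
    have hlog : 0 ≤ Real.log (n:ℝ) := Real.log_nonneg (by exact_mod_cast hn)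
    exact div_le_div_of_nonneg_right (mul_le_mul_of_nonneg_right h2 hlog) (by positivity)

end Pool.Agent.Lib_helper90.Packing
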