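import Pool.Agent.Lib_helper90.Packing.Defs

/-!
# Packing a lacunary cluster of primes
-/

set_option autoImplicit false

namespace Pool.Agent.Lib_helper90.Packing

/-- The progressions with differences in `S` can be packed into `[L]`; `a d` is the first element
of the progression with difference `d`. -/
def Pk (n : ℕ) (S : Finset ℕ) (L : ℕ) : Prop :=
  ∃ a : ℕ → ℤ, (∀ d ∈ S, 1 ≤ a d ∧ a d + ((n : ℤ) - 1) * d ≤ L) ∧
    ∀ d ∈ S, ∀ e ∈ S, d ≠ e → ∀ k l : ℕ, k < n → l < n → a d + k * d ≠ a e + l * e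

lemma Pk.packsInto {n L : ℕ} {S : Finset ℕ} (h : Pk n S L) :
    PacksInto (fun d : S => prog n d) L := by
  obtain ⟨a, h1, h2⟩ := h
  refine ⟨fun d => a d - d, ?_, ?_⟩
  · rintro ⟨d, hd⟩ x hx
    obtain ⟨k, hk, rfl⟩ := Finset.mem_image.1 hx
    rw [Finset.mem_Icc] at hk
    obtain ⟨h3, h4⟩ := h1 d hd
    simp only
    push_cast
    have hk1 : (1:ℤ) ≤ k := by exact_mod_cast hk.1
    have hk2 : (k:ℤ) ≤ n := by exact_mod_cast hk.2
    have hd0 : (0:ℤ) ≤ d := by positivity
    constructor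
    · nlinarith
    · nlinarith
  · rintro ⟨d, hd⟩ ⟨e, he⟩ hde x hx y hy heq
    obtain ⟨k, hk, rfl⟩ := Finset.mem_image.1 hx
    obtain ⟨l, hl, rfl⟩ := Finset.mem_image.1 hy
    rw [Finset.mem_Icc] at hk hl
    have hne : d ≠ e := fun h => hde (Subtype.ext h)
    apply h2 d hd e he hne (k - 1) (l - 1) (by omega) (by omega)
    simp only at heq
    push_cast at heq
    rw [Nat.cast_sub hk.1, Nat.cast_sub hl.1]
    push_cast
    linarith

lemma Pk.mono {n L L' : ℕ} {S : Finset ℕ} (h : Pk n S L) (hL : L ≤ L') : Pk n S L' := by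
  obtain ⟨a, h1, h2⟩ := h
  refine ⟨a, fun d hd => ⟨(h1 d hd).1, (h1 d hd).2.trans ?_⟩, h2⟩
  exact_mod_cast hL

lemma Pk.empty (n : ℕ) : Pk n ∅ 0 :=
  ⟨fun _ => 0, fun d hd => by simp at hd, fun d hd => by simp at hd⟩

lemma Pk.union {n L L' : ℕ} {S S' : Finset ℕ} (h : Pk n S L) (h' : Pk n S' L')
    (hd : Disjoint S S') : Pk n (S ∪ S') (L + L') := by
  classical
  obtain ⟨a, h1, h2⟩ := h
  obtain ⟨a', h1', h2'⟩ := h'
  refine ⟨fun d => if d ∈ S then a d else a' d + L, ?_, ?_⟩
  · intro d hdm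
    by_cases hdS : d ∈ S
    · simp only [hdS, if_true]
      have := h1 d hdS
      push_cast
      constructor
      · exact this.1
      · linarith [this.2]
    · have hdS' : d ∈ S' := by
        rcases Finset.mem_union.1 hdm with h | h
        · exact absurd h hdS
        · exact h
      simp only [hdS, if_false]
      have := h1' d hdS'
      push_cast
      constructor
      · linarith [this.1]
      · linarith [this.2]
  · have key : ∀ d ∈ S, ∀ e ∈ S', ∀ k l : ℕ, k < n → l < n →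
        a d + k * d < a' e + L + l * e := by
      intro d hd e he k l hk hl
      have h3 := (h1 d hd).2
      have h4 := (h1' e he).1
      have h5 : (k:ℤ) ≤ (n:ℤ) - 1 := by
        have : (k:ℤ) < n := by exact_mod_cast hk
        linarith
      have h6 : (k:ℤ) * d ≤ ((n:ℤ) - 1) * d := mul_le_mul_of_nonneg_right h5 (by positivity)
      have h7 : (0:ℤ) ≤ l * e := by positivity
      linarith
    intro d hdm e hem hde k l hk hl
    by_cases hdS : d ∈ S <;> by_cases heS : e ∈ S
    · simp only [hdS, heS, if_true]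
      exact h2 d hdS e heS hde k l hk hl
    · have heS' : e ∈ S' := (Finset.mem_union.1 hem).resolve_left heS
      simp only [hdS, heS, if_true, if_false]
      exact (key d hdS e heS' k l hk hl).ne
    · have hdS' : d ∈ S' := (Finset.mem_union.1 hdm).resolve_left hdS
      simp only [hdS, heS, if_true, if_false]
      exact (key e heS d hdS' l k hl hk).ne'
    · have heS' : e ∈ S' := (Finset.mem_union.1 hem).resolve_left heS
      have hdS' : d ∈ S' := (Finset.mem_union.1 hdm).resolve_left hdS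
      simp only [hdS, heS, if_false]
      intro heq
      exact h2' d hdS' e heS' hde k l hk hl (by linarith)

lemma Pk.single (n d : ℕ) : Pk n {d} (n * d + 1) := by
  refine ⟨fun _ => 1, ?_, ?_⟩
  · intro e he
    rw [Finset.mem_singleton] at he
    subst he
    push_cast
    constructor
    · norm_num
    · have : (0:ℤ) ≤ e := by positivity
      nlinarith
  · intro x hx y hy hxy
    rw [Finset.mem_singleton] at hx hy
    exact absurd (hx.trans hy.symm) hxy

/-- trivial packing of a set of differences -/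
lemma Pk.trivial (n : ℕ) (S : Finset ℕ) (hS : ∀ d ∈ S, d ≤ n) :
    Pk n S (S.card * (n ^ 2 + 1)) := by
  classical
  induction S using Finset.induction_on with
  | empty => simpa using Pk.empty n
  | insert d s hd ih =>
    have h1 := ih (fun e he => hS e (Finset.mem_insert_of_mem he))
    have h2 := (Pk.single n d).union h1 (Finset.disjoint_singleton_left.2 hd)
    rw [← Finset.insert_eq] at h2
    refine h2.mono ?_
    rw [Finset.card_insert_of_notMem hd]
    have h3 : n * d ≤ n ^ 2 := by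
      rw [pow_two]; exact Nat.mul_le_mul_left n (hS d (Finset.mem_insert_self d s))
    rw [add_mul]
    omega

/-- the arithmetic heart: two progressions of a cluster do not meet -/
lemma cluster_disj {n P Q R : ℕ} (hQ : Q.Prime) (hR : R.Prime) (hQR : Q ≠ R)
    {s B δ τ i c α β : ℤ} (hτ : τ * ((R:ℤ) - Q) = δ * B * ((Q:ℤ) - P)) (hτs : |τ| < s)
    (hδ : 1 ≤ δ) (hB0 : 0 ≤ B) (hB : (n:ℤ) - R + 2 * s ≤ B) (hα : α < n) (hβ : 0 ≤ β) :
    c + i * B * P + s * ((Q:ℤ) - P) + α * Q ≠
      c + (i + δ) * B * P + s * ((R:ℤ) - P) + β * R := by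
  intro heq
  have h1 : (α + s - δ * B - τ) * Q = (β + s - τ) * R := by linear_combination heq + hτ
  have hτ' := abs_lt.1 hτs
  have hpos : 0 < β + s - τ := by linarith [hτ'.2]
  have hdvd : (Q:ℤ) ∣ β + s - τ := by
    have hcop : IsCoprime (Q:ℤ) (R:ℤ) := by
      rw [Int.isCoprime_iff_gcd_eq_one, Int.gcd_natCast_natCast]
      exact (Nat.coprime_primes hQ hR).2 hQR
    apply hcop.dvd_of_dvd_mul_right
    rw [← h1]
    exact dvd_mul_left _ _
  have hge : (Q:ℤ) ≤ β + s - τ := Int.le_of_dvd hpos hdvd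
  have hQ0 : (0:ℤ) < Q := by exact_mod_cast hQ.pos
  have hR0 : (0:ℤ) < R := by exact_mod_cast hR.pos
  have h2 : (R:ℤ) * Q ≤ (α + s - δ * B - τ) * Q := by
    rw [h1, mul_comm (R:ℤ)]
    exact mul_le_mul_of_nonneg_right hge hR0.le
  have h3 : (R:ℤ) ≤ α + s - δ * B - τ := le_of_mul_le_mul_right h2 hQ0
  have h4 : B ≤ δ * B := by nlinarith
  linarith [hτ'.1]

/-- packing of a cluster -/
lemma cluster_pack {n G s B ℓ : ℕ} (p : ℕ → ℕ) (hprime : ∀ i < G, (p i).Prime)
    (hinj : ∀ i < G, ∀ j < G, p i = p j → i = j)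
    (hl : ∀ i < G, |(p i : ℤ) - p 0| ≤ ℓ)
    (hτ : ∀ i j, i < j → j < G → ∃ τ : ℤ,
      τ * ((p j : ℤ) - p i) = ((j : ℤ) - i) * B * ((p i : ℤ) - p 0) ∧ |τ| < s)
    (hB : ∀ j < G, (n : ℤ) - p j + 2 * s ≤ B) (hn : 0 < n) :
    Pk n ((Finset.range G).image p) (G * B * p 0 + 2 * s * ℓ + n * (p 0 + ℓ)) := by
  classical
  set a : ℕ → ℤ := fun d => if h : ∃ i, i < G ∧ p i = d then
    (s * ℓ + 1 : ℤ) + (h.choose : ℤ) * B * p 0 + s * ((d:ℤ) - p 0) else 0 with ha
  have haval : ∀ i < G, a (p i) = (s * ℓ + 1 : ℤ) + (i : ℤ) * B * p 0 + s * ((p i : ℤ) - p 0) := by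
    intro i hi
    have hex : ∃ j, j < G ∧ p j = p i := ⟨i, hi, rfl⟩
    have hch : hex.choose = i := hinj _ hex.choose_spec.1 _ hi hex.choose_spec.2
    simp only [ha]
    rw [dif_pos hex, hch]
  have hs0 : (0:ℤ) ≤ s := by positivity
  refine ⟨a, ?_, ?_⟩
  · intro d hd
    obtain ⟨i, hi, rfl⟩ := Finset.mem_image.1 hd
    rw [Finset.mem_range] at hi
    rw [haval i hi]
    have h1 := abs_le.1 (hl i hi)
    have h2 : -((s:ℤ) * ℓ) ≤ s * ((p i : ℤ) - p 0) := by
      have := mul_le_mul_of_nonneg_left h1.1 hs0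
      linarith
    have h3 : s * ((p i : ℤ) - p 0) ≤ (s:ℤ) * ℓ := mul_le_mul_of_nonneg_left h1.2 hs0
    have h4 : (0:ℤ) ≤ (i:ℤ) * B * p 0 := by positivity
    have h5 : (i:ℤ) * B * p 0 ≤ G * B * p 0 := by
      have : (i:ℤ) ≤ G := by exact_mod_cast hi.le
      gcongr
    constructor
    · linarith
    · push_cast
      have h6 : (p i : ℤ) ≤ p 0 + ℓ := by linarith [h1.2]
      have h7 : ((n:ℤ) - 1) * p i ≤ (n:ℤ) * (p 0 + ℓ) - p i := by
        have : (n:ℤ) * p i ≤ n * (p 0 + ℓ) := mul_le_mul_of_nonneg_left h6 (by positivity)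
        linarith
      have h8 : (1:ℤ) ≤ p i := by exact_mod_cast (hprime i hi).pos
      linarith
  · intro d hd e he hde k l hk hl'
    obtain ⟨i, hi, rfl⟩ := Finset.mem_image.1 hd
    obtain ⟨j, hj, rfl⟩ := Finset.mem_image.1 he
    rw [Finset.mem_range] at hi hj
    rw [haval i hi, haval j hj]
    have hij : i ≠ j := fun h => hde (by rw [h])
    have hk' : (k:ℤ) < n := by exact_mod_cast hk
    have hl'' : (l:ℤ) < n := by exact_mod_cast hl'
    rcases lt_or_gt_of_ne hij with h | h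
    · obtain ⟨τ, h1, h2⟩ := hτ i j h hj
      have := cluster_disj (n := n) (P := p 0) (c := (s * ℓ + 1 : ℤ)) (i := (i:ℤ))
        (α := (k:ℤ)) (β := (l:ℤ)) (hprime i hi) (hprime j hj) hde h1 h2
        (by have : (i:ℤ) < j := by exact_mod_cast h
            linarith) (by positivity) (hB j hj) hk' (by positivity)
      have e1 : (i:ℤ) + ((j:ℤ) - i) = j := by ring
      rw [e1] at this
      exact this
    · obtain ⟨τ, h1, h2⟩ := hτ j i h hi
      have := cluster_disj (n := n) (P := p 0) (c := (s * ℓ + 1 : ℤ)) (i := (j:ℤ))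
        (α := (l:ℤ)) (β := (k:ℤ)) (hprime j hj) (hprime i hi) (Ne.symm hde) h1 h2
        (by have : (j:ℤ) < i := by exact_mod_cast h
            linarith) (by positivity) (hB i hi) hl'' (by positivity)
      have e1 : (j:ℤ) + ((i:ℤ) - j) = i := by ring
      rw [e1] at this
      exact Ne.symm this

end Pool.Agent.Lib_helper90.Packing
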