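import Mathlib

/-!
# Packing translates of progressions: definitions
-/

set_option autoImplicit false

namespace Pool.Agent.Lib_helper90.Packing

/-- The finite family `A` of finite sets of positive integers packs into `[m] = {1,…,m}`:
there are integer shifts `s i` such that the sets `s i + A i` are contained in `[m]` and are
pairwise disjoint. -/
def PacksInto {ι : Type} (A : ι → Finset ℕ) (m : ℕ) : Prop :=
  ∃ s : ι → ℤ, (∀ i, ∀ a ∈ A i, 1 ≤ s i + (a : ℤ) ∧ s i + (a : ℤ) ≤ (m : ℤ)) ∧
    ∀ i j, i ≠ j → ∀ a ∈ A i, ∀ b ∈ A j, s i + (a : ℤ) ≠ s j + (b : ℤ)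

/-- `m(F)`: the least `m` for which the family packs into `[m]`. -/
noncomputable def packLength {ι : Type} (A : ι → Finset ℕ) : ℕ := sInf {m : ℕ | PacksInto A m}

/-- `B_d = {d, 2d, …, nd}`. -/
def prog (n d : ℕ) : Finset ℕ := (Finset.Icc 1 n).image (fun k => k * d)

/-- `M_D(n)`: the least packing length of the family `B_d`, `d ∈ D`. -/
noncomputable def packM (n : ℕ) (D : Finset ℕ) : ℕ := packLength (fun d : D => prog n d)

/-- `ℙ(n)`: the primes `p ≤ n`. -/
def primesUpTo (n : ℕ) : Finset ℕ := (Finset.Icc 1 n).filter Nat.Prime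

end Pool.Agent.Lib_helper90.Packing
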