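import Pool.Agent.Lib_helper90.Packing.Defs

/-!
# The lower bound
-/

set_option autoImplicit false

namespace Pool.Agent.Lib_helper90.Packing

/-- CRT in an interval -/
lemma crt_interval {p q : ℕ} (hp : 0 < p) (hq : 0 < q) (hpq : Nat.Coprime p q) (x y c : ℤ) :
    ∃ z : ℤ, c ≤ z ∧ z < c + p * q ∧ (p : ℤ) ∣ z - x ∧ (q : ℤ) ∣ z - y := by
  obtain ⟨u, v, huv⟩ := Int.isCoprime_iff_gcd_eq_one.2 (by simpa [Int.gcd_natCast_natCast] using hpq :
    Int.gcd (p:ℤ) (q:ℤ) = 1)
  -- u * p + v * q = 1
  set w : ℤ := x * (v * q) + y * (u * p) with hw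
  have h1 : (p : ℤ) ∣ w - x := by
    have : w - x = p * (u * (y - x)) := by
      have e : x = x * (u * p + v * q) := by rw [huv, mul_one]
      rw [hw]
      calc x * (v * q) + y * (u * p) - x = x * (v * q) + y * (u * p) - x * (u * p + v * q) := by
            rw [← e]
        _ = p * (u * (y - x)) := by ring
    rw [this]; exact dvd_mul_right _ _
  have h2 : (q : ℤ) ∣ w - y := by
    have : w - y = q * (v * (x - y)) := by
      have e : y = y * (u * p + v * q) := by rw [huv, mul_one]
      rw [hw]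
      calc x * (v * q) + y * (u * p) - y = x * (v * q) + y * (u * p) - y * (u * p + v * q) := by
            rw [← e]
        _ = q * (v * (x - y)) := by ring
    rw [this]; exact dvd_mul_right _ _
  have hpos : (0:ℤ) < p * q := by positivity
  refine ⟨c + (w - c) % (p * q), ?_, ?_, ?_, ?_⟩
  · have := Int.emod_nonneg (w - c) hpos.ne'
    linarith
  · have := Int.emod_lt_of_pos (w - c) hpos
    linarith
  · have e : c + (w - c) % (p * q) - x = (w - x) - p * (q * ((w - c) / (p * q))) := by
      have := Int.emod_add_mul_ediv (w - c) (p * q)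
      linear_combination this
    rw [e]
    exact dvd_sub h1 (dvd_mul_right _ _)
  · have e : c + (w - c) % (p * q) - y = (w - y) - q * (p * ((w - c) / (p * q))) := by
      have := Int.emod_add_mul_ediv (w - c) (p * q)
      linear_combination this
    rw [e]
    exact dvd_sub h2 (dvd_mul_right _ _)

/-- two disjoint progressions: `a`, `b` are the first elements -/
lemma gap {n p q : ℕ} (hp : p.Prime) (hq : q.Prime) (hpn : p ≤ n) (hpq : p ≠ q)
    {a b : ℤ} (hab : a ≤ b)
    (hdisj : ∀ k l : ℕ, k < n → l < n → a + k * p ≠ b + l * q) :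
    2 * (n : ℤ) * p - p ^ 2 - q ^ 2 ≤ 2 * (b - a) := by
  have hp0 : 0 < p := hp.pos
  have hq0 : 0 < q := hq.pos
  have hsq : (0:ℤ) ≤ ((p:ℤ) - q) ^ 2 := sq_nonneg _
  obtain ⟨z, hz1, hz2, hz3, hz4⟩ := crt_interval hp0 hq0 ((Nat.coprime_primes hp hq).2 hpq) a b b
  obtain ⟨k, hk⟩ := hz3
  obtain ⟨l, hl⟩ := hz4
  have hk0 : 0 ≤ k := by
    by_contra h
    push Not at h
    have : (p:ℤ) * k < 0 := mul_neg_of_pos_of_neg (by exact_mod_cast hp0) h
    linarith
  have hl0 : 0 ≤ l := by
    by_contra h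
    push Not at h
    have : (q:ℤ) * l < 0 := mul_neg_of_pos_of_neg (by exact_mod_cast hq0) h
    linarith
  have hor : (n:ℤ) ≤ k ∨ (n:ℤ) ≤ l := by
    by_contra h
    push Not at h
    have := hdisj k.toNat l.toNat (by omega) (by omega)
    apply this
    rw [Int.toNat_of_nonneg hk0, Int.toNat_of_nonneg hl0]
    linarith
  have hpz : (0:ℤ) < p := by exact_mod_cast hp0
  have hqz : (0:ℤ) < q := by exact_mod_cast hq0
  rcases hor with h | h
  · -- `z ≥ a + n p`, `z < b + p q`
    have h1 : (p:ℤ) * n ≤ p * k := mul_le_mul_of_nonneg_left h hpz.le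
    nlinarith
  · -- `q n ≤ q l = z - b < p q`, so `n < p`: impossible
    exfalso
    have h1 : (q:ℤ) * n ≤ q * l := mul_le_mul_of_nonneg_left h hqz.le
    have h2 : (q:ℤ) * n < p * q := by linarith
    have h3 : (n:ℤ) < p := by nlinarith
    have : n < p := by exact_mod_cast h3
    omega

/-- the weight of a prime -/
def wt (n p : ℕ) : ℤ := (n : ℤ) * p - p ^ 2

/-- induction on the set of primes, adding the progression with the largest first element -/
lemma spread (n : ℕ) (a : ℕ → ℤ) (S : Finset ℕ) :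
    (∀ p ∈ S, p.Prime ∧ p ≤ n) →
    (∀ p ∈ S, ∀ q ∈ S, p ≠ q → ∀ k l : ℕ, k < n → l < n → a p + k * p ≠ a q + l * q) →
    ∀ q ∈ S, (∀ p ∈ S, a p ≤ a q) → ∀ c : ℤ, (∀ p ∈ S, c ≤ a p) →
      2 * ∑ p ∈ S, wt n p - (2 * (n : ℤ) * q - q ^ 2) ≤ 2 * (a q - c) := by
  classical
  induction S using Finset.induction_on_max_value a with
  | empty => intro _ _ q hq; simp at hq
  | insert x s hxs hmax ih =>
    intro hP hD q hq hqmax c hc
    rw [Finset.sum_insert hxs]
    -- `q` is `x`, since the first elements are distinct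
    have hqx : q = x := by
      rcases Finset.mem_insert.1 hq with h | h
      · exact h
      · exfalso
        have hne : q ≠ x := fun h' => hxs (h' ▸ h)
        have h1 := hmax q h
        have h2 := hqmax x (Finset.mem_insert_self x s)
        have hn : 0 < n := lt_of_lt_of_le (hP q hq).1.pos (hP q hq).2
        have := hD q hq x (Finset.mem_insert_self x s) hne 0 0 hn hn
        apply this
        simp
        linarith
    subst hqx
    by_cases hs : s.Nonempty
    · obtain ⟨q', hq's, hq'max⟩ := s.exists_max_image a hs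
      have hih := ih (fun p hp => hP p (Finset.mem_insert_of_mem hp))
        (fun p hp r hr => hD p (Finset.mem_insert_of_mem hp) r (Finset.mem_insert_of_mem hr))
        q' hq's hq'max c (fun p hp => hc p (Finset.mem_insert_of_mem hp))
      have hne : q' ≠ q := fun h' => hxs (h' ▸ hq's)
      have hgap := gap (hP q' (Finset.mem_insert_of_mem hq's)).1
        (hP q (Finset.mem_insert_self q s)).1 (hP q' (Finset.mem_insert_of_mem hq's)).2 hne
        (hmax q' hq's) (hD q' (Finset.mem_insert_of_mem hq's) q (Finset.mem_insert_self q s) hne)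
      unfold wt at *
      linarith
    · rw [Finset.not_nonempty_iff_eq_empty] at hs
      subst hs
      have := hc q (Finset.mem_insert_self q _)
      have hsq : (0:ℤ) ≤ (q:ℤ) ^ 2 := sq_nonneg _
      unfold wt
      simp only [Finset.sum_empty, add_zero]
      linarith

/-- The lower bound `M ≥ ∑_{p ≤ n} p (n - p)`. -/
theorem lower_bound {n m : ℕ} (h : PacksInto (fun d : primesUpTo n => prog n d) m) :
    ∑ p ∈ primesUpTo n, wt n p ≤ (m : ℤ) := by
  classical
  obtain ⟨s, hs1, hs2⟩ := h
  by_cases hne : (primesUpTo n).Nonempty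
  swap
  · rw [Finset.not_nonempty_iff_eq_empty] at hne
    rw [hne, Finset.sum_empty]
    positivity
  -- extend the first elements to a function on `ℕ`
  set a : ℕ → ℤ := fun p => if h : p ∈ primesUpTo n then s ⟨p, h⟩ + p else 0 with ha
  have haval : ∀ (p : ℕ) (hp : p ∈ primesUpTo n), a p = s ⟨p, hp⟩ + p := fun p hp => by
    simp [ha, hp]
  have hmem : ∀ p k : ℕ, k < n → (k + 1) * p ∈ prog n p := fun p k hk =>
    Finset.mem_image.2 ⟨k + 1, Finset.mem_Icc.2 ⟨by omega, by omega⟩, rfl⟩
  have hP : ∀ p ∈ primesUpTo n, p.Prime ∧ p ≤ n := by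
    intro p hp
    unfold primesUpTo at hp
    rw [Finset.mem_filter, Finset.mem_Icc] at hp
    exact ⟨hp.2, hp.1.2⟩
  have hD : ∀ p ∈ primesUpTo n, ∀ q ∈ primesUpTo n, p ≠ q → ∀ k l : ℕ, k < n → l < n →
      a p + k * p ≠ a q + l * q := by
    intro p hp q hq hpq k l hk hl heq
    have := hs2 ⟨p, hp⟩ ⟨q, hq⟩ (fun h => hpq (congrArg Subtype.val h)) _ (hmem p k hk) _
      (hmem q l hl)
    apply this
    rw [haval p hp, haval q hq] at heq
    push_cast
    linarith
  obtain ⟨q, hq, hqmax⟩ := (primesUpTo n).exists_max_image a hne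
  have hn : 0 < n := lt_of_lt_of_le (hP q hq).1.pos (hP q hq).2
  have hc : ∀ p ∈ primesUpTo n, (1:ℤ) ≤ a p := by
    intro p hp
    have := (hs1 ⟨p, hp⟩ _ (hmem p 0 hn)).1
    rw [haval p hp]
    push_cast at this
    linarith
  have h1 := spread n a (primesUpTo n) hP hD q hq hqmax 1 hc
  have h2 := (hs1 ⟨q, hq⟩ _ (hmem q (n - 1) (by omega))).2
  have h3 : n - 1 + 1 = n := by omega
  rw [h3] at h2
  rw [haval q hq] at h1
  push_cast at h2
  have hsq : (0:ℤ) ≤ ((q:ℤ) - 1) ^ 2 := sq_nonneg _
  have hsq' : ((q:ℤ) - 1) ^ 2 = (q:ℤ) ^ 2 - 2 * q + 1 := by ring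
  linarith

end Pool.Agent.Lib_helper90.Packing
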