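import Pool.Agent.Lib_helper90.Packing.Cluster
import Pool.Agent.Lib_helper90.Packing.Lower

/-!
# Greedy extraction of lacunary clusters
-/

set_option autoImplicit false

namespace Pool.Agent.Lib_helper90.Packing

/-- Every set with at least `(3Λ+1)^G` elements contains a lacunary sequence of length `G`. -/
lemma lacunary {Λ : ℕ} (hΛ : 2 ≤ Λ) (G : ℕ) : ∀ S : Finset ℕ, (3 * Λ + 1) ^ G ≤ S.card →
    ∃ p : ℕ → ℕ, (∀ i < G, p i ∈ S) ∧ (∀ i < G, ∀ j < G, p i = p j → i = j) ∧
      ∀ i j, i < j → j < G → (Λ : ℤ) * |(p i : ℤ) - p 0| ≤ |(p j : ℤ) - p i| := by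
  induction G with
  | zero =>
    intro S _
    exact ⟨fun _ => 0, fun i hi => by omega, fun i hi => by omega, fun i j _ hj => by omega⟩
  | succ G ih =>
    intro S hS
    rcases Nat.eq_zero_or_pos G with hG | hG
    · subst hG
      have hne : S.Nonempty := by
        rw [← Finset.card_pos]
        have : 0 < (3 * Λ + 1) ^ (0 + 1) := by positivity
        omega
      obtain ⟨x, hx⟩ := hne
      exact ⟨fun _ => x, fun i _ => hx, fun i hi j hj _ => by omega, fun i j h hj => by omega⟩
    · have hcard2 : 2 ≤ S.card := by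
        have h1 : 3 * Λ + 1 ≤ (3 * Λ + 1) ^ (G + 1) := Nat.le_self_pow (by omega) _
        omega
      have hne : S.Nonempty := Finset.card_pos.1 (by omega)
      set a := S.min' hne with ha
      set b := S.max' hne with hb
      have hab : a < b := Finset.min'_lt_max'_of_card S (by omega)
      set D := b - a with hD
      have hD0 : 0 < D := by omega
      have hmaps : ∀ t ∈ S, (t - a) * (3 * Λ) / D ∈ Finset.range (3 * Λ + 1) := by
        intro t ht
        rw [Finset.mem_range, Nat.lt_succ_iff]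
        apply Nat.div_le_of_le_mul
        apply Nat.mul_le_mul_right
        have := Finset.le_max' S t ht
        omega
      obtain ⟨y, _, hy⟩ := Finset.exists_le_card_fiber_of_mul_le_card_of_maps_to
        (n := (3 * Λ + 1) ^ G) hmaps (by simp) (by
          rw [Finset.card_range, ← pow_succ']; exact hS)
      obtain ⟨p, hp1, hp2, hp3⟩ := ih _ hy
      have hpS : ∀ i < G, p i ∈ S ∧ (p i - a) * (3 * Λ) / D = y := by
        intro i hi
        have := hp1 i hi
        rw [Finset.mem_filter] at this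
        exact this
      have hpa : ∀ i < G, a ≤ p i := fun i hi => Finset.min'_le S _ (hpS i hi).1
      have hpb : ∀ i < G, p i ≤ b := fun i hi => Finset.le_max' S _ (hpS i hi).1
      -- points of the same bucket are close
      have hclose : ∀ i < G, 3 * (Λ:ℤ) * |(p i : ℤ) - p 0| < D := by
        intro i hi
        have hb1 : ∀ j < G, (y:ℤ) * D ≤ ((p j:ℤ) - a) * (3 * Λ) ∧
            ((p j:ℤ) - a) * (3 * Λ) < (y + 1) * D := by
          intro j hj
          have h1 := (hpS j hj).2
          have h2 := Nat.div_add_mod ((p j - a) * (3 * Λ)) D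
          have h3 := Nat.mod_lt ((p j - a) * (3 * Λ)) hD0
          rw [h1] at h2
          have h4 : ((p j - a : ℕ) : ℤ) = (p j : ℤ) - a := by
            rw [Nat.cast_sub (hpa j hj)]
          have h5 : ((p j:ℤ) - a) * (3 * Λ) = (((p j - a) * (3 * Λ) : ℕ) : ℤ) := by
            push_cast [← h4]; rfl
          rw [h5]
          constructor
          · have : D * y ≤ (p j - a) * (3 * Λ) := by omega
            have h6 : y * D ≤ (p j - a) * (3 * Λ) := by rw [mul_comm]; exact this
            exact_mod_cast h6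
          · have : (p j - a) * (3 * Λ) < D * y + D := by omega
            have h6 : (p j - a) * (3 * Λ) < (y + 1) * D := by
              have e : (y + 1) * D = D * y + D := by ring
              rw [e]; exact this
            exact_mod_cast h6
        have h1 := hb1 i hi
        have h2 := hb1 0 hG
        have hΛ0 : (0:ℤ) < 3 * Λ := by positivity
        rcases abs_cases ((p i : ℤ) - p 0) with ⟨h, _⟩ | ⟨h, _⟩ <;> rw [h] <;> nlinarith
      -- choose the far endpoint
      obtain ⟨e, heS, hfar⟩ : ∃ e ∈ S, (D:ℤ) ≤ 2 * |(e:ℤ) - p 0| := by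
        have hDz : (D:ℤ) = (b:ℤ) - a := by rw [hD]; rw [Nat.cast_sub hab.le]
        by_cases h : (D:ℤ) ≤ 2 * ((p 0:ℤ) - a)
        · refine ⟨a, Finset.min'_mem S hne, h.trans ?_⟩
          have := neg_abs_le ((a:ℤ) - p 0)
          linarith
        · refine ⟨b, Finset.max'_mem S hne, ?_⟩
          have := le_abs_self ((b:ℤ) - p 0)
          linarith
      have hfar' : ∀ i < G, (Λ:ℤ) * |(p i : ℤ) - p 0| < |(e:ℤ) - p i| := by
        intro i hi
        have h1 := hclose i hi
        have h2 : |(e:ℤ) - p 0| ≤ |(e:ℤ) - p i| + |(p i:ℤ) - p 0| := by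
          have e1 : (e:ℤ) - p 0 = ((e:ℤ) - p i) + ((p i:ℤ) - p 0) := by ring
          rw [e1]; exact abs_add_le _ _
        have h3 : 0 ≤ |(p i:ℤ) - p 0| := abs_nonneg _
        have hΛ' : (2:ℤ) ≤ Λ := by exact_mod_cast hΛ
        nlinarith
      refine ⟨fun i => if i < G then p i else e, ?_, ?_, ?_⟩
      · intro i hi
        by_cases h : i < G
        · simp only [h, if_true]; exact (hpS i h).1
        · simp only [h, if_false]; exact heS
      · have hne' : ∀ i < G, p i ≠ e := by
          intro i hi heq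
          have := hfar' i hi
          rw [heq] at this
          have h3 : 0 ≤ (Λ:ℤ) * |(e:ℤ) - p 0| := by positivity
          simp at this
          linarith
        intro i hi j hj hij
        by_cases h : i < G <;> by_cases h' : j < G
        · simp only [h, h', if_true] at hij; exact hp2 i h j h' hij
        · simp only [h, h', if_true, if_false] at hij; exact absurd hij (hne' i h)
        · simp only [h, h', if_true, if_false] at hij; exact absurd hij.symm (hne' j h')
        · omega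
      · intro i j hij hj
        have hi : i < G := by omega
        have h0 : (if 0 < G then p 0 else e) = p 0 := by simp [hG]
        by_cases h' : j < G
        · simp only [hi, h', if_true, h0]
          exact hp3 i j hij h'
        · simp only [hi, h', if_true, if_false, h0]
          exact (hfar' i hi).le

/-- error term of a cluster -/
def errW (n G s ℓ : ℕ) : ℕ :=
  G * (2 * ℓ * n + 2 * s * n + ℓ ^ (G * G) * n) + 2 * s * ℓ + n ^ 2 + n * ℓ

lemma exists_cluster {n G Λ s ℓ : ℕ} (hn : 0 < n) (hG : 0 < G) (hΛ : 2 ≤ Λ) (hℓ : 0 < ℓ)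
    (hcond : G * (n + ℓ + 2 * s + ℓ ^ (G * G)) < Λ * s) (S : Finset ℕ)
    (hS : ∀ p ∈ S, p.Prime ∧ p ≤ n) (hcard : (n / ℓ + 1) * (3 * Λ + 1) ^ G ≤ S.card) :
    ∃ C ⊆ S, C.card = G ∧ ∃ L : ℕ, Pk n C L ∧
      (L : ℤ) ≤ ∑ p ∈ C, wt n p + (errW n G s ℓ : ℤ) := by
  classical
  have hmaps : ∀ t ∈ S, t / ℓ ∈ Finset.range (n / ℓ + 1) := by
    intro t ht
    rw [Finset.mem_range, Nat.lt_succ_iff]
    exact Nat.div_le_div_right (hS t ht).2
  obtain ⟨y, _, hy⟩ := Finset.exists_le_card_fiber_of_mul_le_card_of_maps_to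
    (n := (3 * Λ + 1) ^ G) hmaps (by simp) (by rw [Finset.card_range]; exact hcard)
  obtain ⟨p, hp1, hinj, hlac⟩ := lacunary hΛ G _ hy
  have hpS : ∀ i < G, p i ∈ S ∧ p i / ℓ = y := by
    intro i hi
    have := hp1 i hi
    rw [Finset.mem_filter] at this
    exact this
  have hprime : ∀ i < G, (p i).Prime := fun i hi => (hS _ (hpS i hi).1).1
  have hle : ∀ i < G, p i ≤ n := fun i hi => (hS _ (hpS i hi).1).2
  have hclose : ∀ i < G, ∀ j < G, |(p i : ℤ) - p j| ≤ ℓ := by
    intro i hi j hj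
    have hb1 : ∀ j < G, y * ℓ ≤ p j ∧ p j < y * ℓ + ℓ := by
      intro j hj
      have h1 := (hpS j hj).2
      have h2 := Nat.div_add_mod (p j) ℓ
      have h3 := Nat.mod_lt (p j) hℓ
      rw [h1, mul_comm] at h2
      omega
    have h1 := hb1 i hi
    have h2 := hb1 j hj
    rw [abs_le]
    constructor <;> omega
  -- the common multiple
  set dd : ℕ → ℕ → ℕ := fun i j => if i < j then Int.natAbs ((p j : ℤ) - p i) else 1 with hdd
  have hddpos : ∀ i < G, ∀ j < G, 0 < dd i j := by
    intro i hi j hj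
    simp only [hdd]
    split_ifs with h
    · rw [Int.natAbs_pos, sub_ne_zero]
      intro heq
      have := hinj j hj i hi (by exact_mod_cast heq)
      omega
    · norm_num
  have hddle : ∀ i < G, ∀ j < G, dd i j ≤ ℓ := by
    intro i hi j hj
    simp only [hdd]
    split_ifs with h
    · have := hclose j hj i hi
      rw [← Int.natCast_natAbs] at this
      exact_mod_cast this
    · omega
  set D : ℕ := ∏ i ∈ Finset.range G, ∏ j ∈ Finset.range G, dd i j with hDdef
  have hDpos : 0 < D := Finset.prod_pos fun i hi => Finset.prod_pos fun j hj =>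
    hddpos i (Finset.mem_range.1 hi) j (Finset.mem_range.1 hj)
  have hDle : D ≤ ℓ ^ (G * G) := by
    calc D ≤ ∏ i ∈ Finset.range G, ∏ j ∈ Finset.range G, ℓ :=
          Finset.prod_le_prod' fun i hi => Finset.prod_le_prod' fun j hj =>
            hddle i (Finset.mem_range.1 hi) j (Finset.mem_range.1 hj)
      _ = ℓ ^ (G * G) := by
          simp [Finset.prod_const, ← pow_mul]
  have hdvd : ∀ i j, i < j → j < G → ((p j : ℤ) - p i) ∣ (D : ℤ) := by
    intro i j hij hj
    have h1 : dd i j ∣ D := by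
      refine dvd_trans ?_ (Finset.dvd_prod_of_mem (fun i => ∏ j ∈ Finset.range G, dd i j)
        (Finset.mem_range.2 (hij.trans hj)))
      exact Finset.dvd_prod_of_mem (fun j => dd i j) (Finset.mem_range.2 hj)
    have h2 : dd i j = Int.natAbs ((p j : ℤ) - p i) := by simp [hdd, hij]
    rw [h2] at h1
    exact Int.natAbs_dvd.1 (by exact_mod_cast h1)
  set X : ℕ := n - p 0 + ℓ + 2 * s with hX
  set B : ℕ := D * (X / D + 1) with hBdef
  have hBge : X ≤ B := by
    have h2 := Nat.div_add_mod X D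
    have h3 := Nat.mod_lt X hDpos
    have : B = D * (X / D) + D := by rw [hBdef]; ring
    omega
  have hBle : B ≤ X + D := by
    have h2 := Nat.div_add_mod X D
    have : B = D * (X / D) + D := by rw [hBdef]; ring
    omega
  have hp0 : p 0 ≤ n := hle 0 hG
  have hBle' : B ≤ n + ℓ + 2 * s + ℓ ^ (G * G) := by omega
  have hτ : ∀ i j, i < j → j < G → ∃ τ : ℤ,
      τ * ((p j : ℤ) - p i) = ((j : ℤ) - i) * B * ((p i : ℤ) - p 0) ∧ |τ| < s := by
    intro i j hij hj
    obtain ⟨b, hb⟩ := (hdvd i j hij hj).trans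
      (show (D:ℤ) ∣ B by rw [hBdef]; push_cast; exact dvd_mul_right _ _)
    refine ⟨((j:ℤ) - i) * b * ((p i : ℤ) - p 0), by rw [hb]; ring, ?_⟩
    set τ : ℤ := ((j:ℤ) - i) * b * ((p i : ℤ) - p 0) with hτdef
    have h1 : τ * ((p j : ℤ) - p i) = ((j : ℤ) - i) * B * ((p i : ℤ) - p 0) := by
      rw [hb]; ring
    have hji0 : (0:ℤ) ≤ (j:ℤ) - i := by
      have : (i:ℤ) < j := by exact_mod_cast hij
      linarith
    have hjiG : (j:ℤ) - i ≤ G := by
      have : (j:ℤ) < G := by exact_mod_cast hj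
      have : (0:ℤ) ≤ i := by positivity
      linarith
    have h2 : |τ| * |(p j : ℤ) - p i| = ((j : ℤ) - i) * B * |(p i : ℤ) - p 0| := by
      rw [← abs_mul, h1, abs_mul, abs_mul, abs_of_nonneg hji0,
        abs_of_nonneg (show (0:ℤ) ≤ (B:ℤ) by positivity)]
    have h3 := hlac i j hij hj
    have hpos : 0 < |(p j : ℤ) - p i| := by
      rw [abs_pos, sub_ne_zero]
      intro heq
      have := hinj j hj i (hij.trans hj) (by exact_mod_cast heq)
      omega
    have h4 : (Λ : ℤ) * |τ| * |(p j : ℤ) - p i| ≤ (G * B) * |(p j : ℤ) - p i| := by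
      calc (Λ : ℤ) * |τ| * |(p j : ℤ) - p i| = Λ * (|τ| * |(p j : ℤ) - p i|) := by ring
        _ = ((j : ℤ) - i) * B * (Λ * |(p i : ℤ) - p 0|) := by rw [h2]; ring
        _ ≤ ((j : ℤ) - i) * B * |(p j : ℤ) - p i| :=
            mul_le_mul_of_nonneg_left h3 (by positivity)
        _ ≤ (G * B) * |(p j : ℤ) - p i| := by
            apply mul_le_mul_of_nonneg_right _ (abs_nonneg _)
            exact mul_le_mul_of_nonneg_right hjiG (by positivity)
    have h5 : (Λ : ℤ) * |τ| ≤ G * B := le_of_mul_le_mul_right h4 hpos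
    have h6 : (G:ℤ) * B < Λ * s := by
      have : G * B < Λ * s := lt_of_le_of_lt (Nat.mul_le_mul_left G hBle') hcond
      exact_mod_cast this
    have h7 : (Λ : ℤ) * |τ| < Λ * s := lt_of_le_of_lt h5 h6
    exact lt_of_mul_lt_mul_left h7 (by positivity)
  have hBj : ∀ j < G, (n : ℤ) - p j + 2 * s ≤ B := by
    intro j hj
    have h1 := (abs_le.1 (hclose j hj 0 hG)).1
    have h2 : (X:ℤ) ≤ B := by exact_mod_cast hBge
    have h3 : (X:ℤ) = (n:ℤ) - p 0 + ℓ + 2 * s := by
      rw [hX]; push_cast [Nat.cast_sub hp0]; ring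
    linarith
  have hpk := cluster_pack (n := n) (G := G) (s := s) (B := B) (ℓ := ℓ) p hprime hinj
    (fun i hi => hclose i hi 0 hG) hτ hBj hn
  refine ⟨(Finset.range G).image p, ?_, ?_, _, hpk, ?_⟩
  · intro x hx
    obtain ⟨i, hi, rfl⟩ := Finset.mem_image.1 hx
    exact (hpS i (Finset.mem_range.1 hi)).1
  · rw [Finset.card_image_of_injOn, Finset.card_range]
    intro i hi j hj hij
    exact hinj i (by simpa using hi) j (by simpa using hj) hij
  · rw [Finset.sum_image (fun i hi j hj hij => hinj i (by simpa using hi) j (by simpa using hj) hij)]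
    have h1 : ∀ i ∈ Finset.range G, (p 0 : ℤ) * (n - p 0) - ℓ * n ≤ wt n (p i) := by
      intro i hi
      rw [Finset.mem_range] at hi
      have h2 := abs_le.1 (hclose i hi 0 hG)
      have h3 : (p i : ℤ) ≤ n := by exact_mod_cast hle i hi
      have h4 : (p 0 : ℤ) ≤ n := by exact_mod_cast hp0
      have h5 : (0:ℤ) ≤ p i := by positivity
      have h6 : (0:ℤ) ≤ p 0 := by positivity
      have h7 : |((p i : ℤ) - p 0) * (n - p i - p 0)| ≤ ℓ * n := by
        rw [abs_mul]
        apply mul_le_mul (hclose i hi 0 hG) _ (abs_nonneg _) (by positivity)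
        rw [abs_le]
        constructor <;> linarith
      have h8 := (abs_le.1 h7).1
      unfold wt
      have e : ((p i : ℤ) - p 0) * (n - p i - p 0) =
          ((n:ℤ) * p i - p i ^ 2) - (p 0 : ℤ) * (n - p 0) := by ring
      linarith
    have h2 := Finset.sum_le_sum h1
    rw [Finset.sum_const, Finset.card_range, nsmul_eq_mul] at h2
    have h3 : (B:ℤ) ≤ (n:ℤ) - p 0 + ℓ + 2 * s + ℓ ^ (G * G) := by
      have h4 : B ≤ X + ℓ ^ (G * G) := by omega
      have h5 : (B:ℤ) ≤ X + ℓ ^ (G * G) := by exact_mod_cast h4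
      have h6 : (X:ℤ) = (n:ℤ) - p 0 + ℓ + 2 * s := by
        rw [hX]; push_cast [Nat.cast_sub hp0]; ring
      linarith
    have h4 : (p 0 : ℤ) ≤ n := by exact_mod_cast hp0
    have h5 : (G:ℤ) * B * p 0 ≤ G * ((p 0:ℤ) * (n - p 0)) + G * (n * (ℓ + 2 * s + ℓ ^ (G * G))) := by
      have h6 : (B:ℤ) * p 0 ≤ (p 0:ℤ) * (n - p 0) + n * (ℓ + 2 * s + ℓ ^ (G * G)) := by
        calc (B:ℤ) * p 0 ≤ ((n:ℤ) - p 0 + ℓ + 2 * s + ℓ ^ (G * G)) * p 0 :=
              mul_le_mul_of_nonneg_right h3 (by positivity)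
          _ = (p 0:ℤ) * (n - p 0) + p 0 * (ℓ + 2 * s + ℓ ^ (G * G)) := by ring
          _ ≤ (p 0:ℤ) * (n - p 0) + n * (ℓ + 2 * s + ℓ ^ (G * G)) := by gcongr
      calc (G:ℤ) * B * p 0 = G * (B * p 0) := by ring
        _ ≤ G * ((p 0:ℤ) * (n - p 0) + n * (ℓ + 2 * s + ℓ ^ (G * G))) :=
            mul_le_mul_of_nonneg_left h6 (by positivity)
        _ = _ := by ring
    have h7 : (n:ℤ) * (p 0 + ℓ) ≤ n ^ 2 + n * ℓ := by nlinarith
    unfold errW
    push_cast
    nlinarith

/-- The greedy packing. -/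
theorem greedy {n G Λ s ℓ : ℕ} (hn : 0 < n) (hG : 0 < G) (hΛ : 2 ≤ Λ) (hℓ : 0 < ℓ)
    (hcond : G * (n + ℓ + 2 * s + ℓ ^ (G * G)) < Λ * s) (N : ℕ) : ∀ S : Finset ℕ, S.card = N →
    (∀ p ∈ S, p.Prime ∧ p ≤ n) → ∃ L : ℕ, Pk n S L ∧
      (L : ℝ) ≤ ∑ p ∈ S, (wt n p : ℝ) + S.card * ((errW n G s ℓ : ℝ) / G) +
        ((n / ℓ + 1 : ℕ) * (3 * Λ + 1 : ℕ) ^ G : ℝ) * (n ^ 2 + 1) := by
  classical
  induction N using Nat.strong_induction_on with
  | _ N ih =>
    intro S hSN hS
    have hwt : ∀ p ∈ S, 0 ≤ wt n p := by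
      intro p hp
      have h1 : (p:ℤ) ≤ n := by exact_mod_cast (hS p hp).2
      have h2 : (0:ℤ) ≤ p := by positivity
      unfold wt
      nlinarith
    by_cases hcard : (n / ℓ + 1) * (3 * Λ + 1) ^ G ≤ S.card
    · obtain ⟨C, hCS, hCG, L, hL1, hL2⟩ := exists_cluster hn hG hΛ hℓ hcond S hS hcard
      have hcard' : (S \ C).card < N := by
        rw [Finset.card_sdiff_of_subset hCS, hSN, hCG]
        have : G ≤ N := by rw [← hCG, ← hSN]; exact Finset.card_le_card hCS
        omega
      obtain ⟨L', hL1', hL2'⟩ := ih _ hcard' (S \ C) rfl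
        (fun p hp => hS p (Finset.sdiff_subset hp))
      refine ⟨L + L', ?_, ?_⟩
      · have h := hL1.union hL1' Finset.disjoint_sdiff
        rwa [Finset.union_sdiff_of_subset hCS] at h
      · have h1 : (L:ℝ) ≤ ∑ p ∈ C, (wt n p : ℝ) + (errW n G s ℓ : ℝ) := by exact_mod_cast hL2
        have h2 : ∑ p ∈ S, (wt n p : ℝ) = ∑ p ∈ C, (wt n p : ℝ) + ∑ p ∈ S \ C, (wt n p : ℝ) := by
          rw [add_comm]; exact (Finset.sum_sdiff hCS).symm
        have h3 : (S.card : ℝ) = G + ((S \ C).card : ℝ) := by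
          have : S.card = G + (S \ C).card := by
            rw [← hCG, add_comm]; exact (Finset.card_sdiff_add_card_eq_card hCS).symm
          exact_mod_cast this
        have hG' : (G:ℝ) ≠ 0 := by exact_mod_cast hG.ne'
        have h4 : (G:ℝ) * ((errW n G s ℓ : ℝ) / G) = errW n G s ℓ := by field_simp
        rw [h2, h3, add_mul, h4]
        push_cast at hL2' ⊢
        linarith
    · push Not at hcard
      refine ⟨S.card * (n ^ 2 + 1), Pk.trivial n S (fun d hd => (hS d hd).2), ?_⟩
      have h1 : (0:ℝ) ≤ ∑ p ∈ S, (wt n p : ℝ) :=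
        Finset.sum_nonneg fun p hp => by exact_mod_cast hwt p hp
      have h2 : (0:ℝ) ≤ S.card * ((errW n G s ℓ : ℝ) / G) := by positivity
      have h3 : (S.card : ℝ) ≤ ((n / ℓ + 1 : ℕ) * (3 * Λ + 1 : ℕ) ^ G : ℝ) := by
        exact_mod_cast hcard.le
      have h4 : (S.card : ℝ) * ((n:ℝ) ^ 2 + 1) ≤
          ((n / ℓ + 1 : ℕ) * (3 * Λ + 1 : ℕ) ^ G : ℝ) * ((n:ℝ) ^ 2 + 1) :=
        mul_le_mul_of_nonneg_right h3 (by positivity)
      push_cast at h4 ⊢
      linarith

end Pool.Agent.Lib_helper90.Packing
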